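import Pool.Agent.TH27.FS.Cross
set_option autoImplicit false
namespace Pool.Agent.TH27.FS
open Equiv

private theorem TB.good_of {A : Type} (T : TB A) (R : ℕ) (Q : (ℤ → Prop) → Prop)
    (hQ : ∀ f g : ℤ → Prop, (∀ k : ℤ, -(R : ℤ) ≤ k → k ≤ R → (f k ↔ g k)) → Q f → Q g) :
    T.F.Good (fun x p => Q (fun k => T.site x (p + k * T.d))) where
  sh x n p _ := by
    have : (fun k : ℤ => T.site (sh n x) (p + k * T.d)) =
        (fun k : ℤ => T.site x (p + n + k * T.d)) := by
      funext k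
      apply propext
      have := T.F.site_sh x n (p + k * T.d)
      rw [show p + n + k * T.d = p + k * T.d + n by ring]
      exact this
    rw [this]
  loc := by
    obtain ⟨r, hr⟩ := T.F.site_loc
    have hd := T.d_pos
    refine ⟨r + R * T.d.toNat, fun x y p h _ hC => hQ _ _ (fun k h1 h2 => ?_) hC⟩
    have e : (((r + R * T.d.toNat : ℕ)) : ℤ) = r + R * T.d := by
      push_cast
      rw [Int.toNat_of_nonneg hd.le]
    rw [e] at h
    have b1 : k * T.d ≤ R * T.d := mul_le_mul_of_nonneg_right h2 hd.le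
    have b2 : -(R : ℤ) * T.d ≤ k * T.d := mul_le_mul_of_nonneg_right h1 hd.le
    exact ⟨hr x y _ (fun i h3 h4 => h i (by linarith) (by linarith)),
      hr y x _ (fun i h3 h4 => (h i (by linarith) (by linarith)).symm)⟩
  inv x y hm p _ hC := hQ _ _ (fun k _ _ => hm.site_iff _) hC

theorem TB.good_RI {A : Type} (T : TB A) (i : ℕ) : T.F.Good (T.RI i) := by
  refine T.good_of i (fun f => (∀ k : ℤ, 0 ≤ k → k < i → f k) ∧ ¬ f i) ?_
  rintro f g h ⟨h1, h2⟩
  exact ⟨fun k hk hk' => (h k (by omega) (by omega)).1 (h1 k hk hk'),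
    fun h3 => h2 ((h i (by omega) le_rfl).2 h3)⟩

theorem TB.good_LI {A : Type} (T : TB A) (i : ℕ) : T.F.Good (T.LI i) := by
  have := T.good_of i (fun f => (∀ k : ℤ, 0 ≤ k → k < i → f (-k)) ∧ ¬ f (-i)) (by
    rintro f g h ⟨h1, h2⟩
    exact ⟨fun k hk hk' => (h (-k) (by omega) (by omega)).1 (h1 k hk hk'),
      fun h3 => h2 ((h (-i) (by omega) (by omega)).2 h3)⟩)
  convert this using 1
  funext x p
  simp only [TB.LI, neg_mul, ← sub_eq_add_neg]

theorem TB.good_D {A : Type} (T : TB A) (R : ℕ) : T.F.Good (T.D R) :=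
  T.good_of R (fun f => ∀ k : ℤ, -(R : ℤ) ≤ k → k ≤ R → f k) fun _ _ h h1 k hk hk' =>
    (h k hk hk').1 (h1 k hk hk')

/-- all sub-controls are in `N` -/
private def FullC {A : Type} {l : ℕ} (N : Subgroup (AutG A)) (F : Fam A l)
    (C : (ℤ → A) → ℤ → Prop) : Prop :=
  ∀ C' : (ℤ → A) → ℤ → Prop, F.Good C' → (∀ x p, F.site x p → C' x p → C x p) →
    ∀ a b c : Fin l → A, a ∈ F.Z → b ∈ F.Z → c ∈ F.Z → D3 a b c →
      InN N (actf (F.ctl C' (tc a b c)))

private theorem FullC.or {A : Type} {l : ℕ} {N : Subgroup (AutG A)} {F : Fam A l}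
    {C₁ C₂ : (ℤ → A) → ℤ → Prop} (h1 : F.Good C₁) (f1 : FullC N F C₁) (f2 : FullC N F C₂) :
    FullC N F (fun x p => C₁ x p ∨ C₂ x p) := by
  intro C' g' hs a b c ha hb hc h
  refine InN_union (C₁ := fun x p => C' x p ∧ C₁ x p) (C₂ := fun x p => C' x p ∧ ¬ C₁ x p)
    (g'.and h1) (g'.and h1.not) (fun x p _ => ?_) (fun x p _ => ?_) (Fam.ok_tc ha hb hc)
    (f1 _ (g'.and h1) (fun x p _ h => h.2) a b c ha hb hc h)
    (f2 _ (g'.and h1.not) (fun x p hp h => (hs x p hp h.1).resolve_left h.2) a b c ha hb hc h)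
  · tauto
  · tauto

private theorem FullC.of_five {A : Type} (T : TB A) {N : Subgroup (AutG A)} [N.Normal]
    (h5 : T.Five) {C : (ℤ → A) → ℤ → Prop} (g : T.F.Good C)
    (h : ∀ a b c : Fin T.n → A, a ∈ T.Z → b ∈ T.Z → c ∈ T.Z → D3 a b c →
      InN N (actf (T.F.ctl C (tc a b c)))) : FullC N T.F C := by
  intro C' g' hs a b c ha hb hc h3
  obtain ⟨d, hd, e, he, k1, k2, k3⟩ := h5 a b c ha hb hc h3
  exact sub_ctl g g' hs ha hb hc hd he h3 k1 k2 k3 (h a b d ha hb hd ⟨h3.1, k1.1, k2.1⟩)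

/-- DEEPNESS from right and left indices -/
theorem TB.deep_of {A : Type} (T : TB A) {N : Subgroup (AutG A)} [N.Normal] (h5 : T.Five)
    (hR : ∀ i : ℕ, 1 ≤ i → ∀ a b c : Fin T.n → A, a ∈ T.Z → b ∈ T.Z → c ∈ T.Z → D3 a b c →
      InN N (actf (T.F.ctl (T.RI i) (tc a b c))))
    (hL : ∀ i : ℕ, 1 ≤ i → ∀ a b c : Fin T.n → A, a ∈ T.Z → b ∈ T.Z → c ∈ T.Z → D3 a b c →
      InN N (actf (T.F.ctl (T.LI i) (tc a b c)))) : T.Deep N := by
  intro R a b c ha hb hc h3
  have key : ∀ R : ℕ, T.F.Good (fun x p => ∃ i : ℕ, 1 ≤ i ∧ i ≤ R ∧ (T.RI i x p ∨ T.LI i x p)) ∧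
      FullC N T.F (fun x p => ∃ i : ℕ, 1 ≤ i ∧ i ≤ R ∧ (T.RI i x p ∨ T.LI i x p)) := by
    intro R
    induction R with
    | zero =>
      constructor
      · refine Fam.good_congr T.F.good_true.not fun x p _ => ?_
        simp only [not_true_eq_false, iff_false]
        rintro ⟨i, h1, h2, -⟩
        omega
      · intro C' g' hs a b c ha hb hc h
        apply InN_empty
        intro x p hp hc
        obtain ⟨i, h1, h2, -⟩ := hs x p hp hc
        omega
    | succ R ih =>
      have e : (fun (x : ℤ → A) (p : ℤ) =>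
          ∃ i : ℕ, 1 ≤ i ∧ i ≤ R + 1 ∧ (T.RI i x p ∨ T.LI i x p)) =
          (fun (x : ℤ → A) (p : ℤ) =>
            (∃ i : ℕ, 1 ≤ i ∧ i ≤ R ∧ (T.RI i x p ∨ T.LI i x p)) ∨
              (T.RI (R + 1) x p ∨ T.LI (R + 1) x p)) := by
        funext x p
        apply propext
        constructor
        · rintro ⟨i, h1, h2, h3⟩
          rcases Nat.lt_or_ge i (R + 1) with h | h
          · exact Or.inl ⟨i, h1, by omega, h3⟩
          · obtain rfl : i = R + 1 := by omega
            exact Or.inr h3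
        · rintro (⟨i, h1, h2, h3⟩ | h)
          · exact ⟨i, h1, by omega, h3⟩
          · exact ⟨R + 1, by omega, le_rfl, h⟩
      rw [e]
      refine ⟨ih.1.or ((T.good_RI _).or (T.good_LI _)), ih.2.or ih.1 ?_⟩
      exact FullC.or (T.good_RI _) (FullC.of_five T h5 (T.good_RI _) (hR (R + 1) (by omega)))
        (FullC.of_five T h5 (T.good_LI _) (hL (R + 1) (by omega)))
  refine (key R).2 _ (T.good_D R).not (fun x p hp hD => ?_) a b c ha hb hc h3
  by_contra hcon
  push Not at hcon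
  apply hD
  have step : ∀ m : ℕ, m ≤ R → ∀ k : ℤ, -(m : ℤ) ≤ k → k ≤ m → T.site x (p + k * T.d) := by
    intro m
    induction m with
    | zero =>
      intro _ k h1 h2
      obtain rfl : k = 0 := by push_cast at h1 h2; omega
      have hp' : T.site x p := hp
      simpa using hp'
    | succ m ih =>
      intro hm k h1 h2
      have ih' := ih (by omega)
      obtain ⟨n1, n2⟩ := hcon (m + 1) (by omega) hm
      push_cast at h1 h2
      by_cases c1 : k = m + 1
      · subst c1
        by_contra hns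
        apply n1
        refine ⟨fun k' h3 h4 => ih' k' (by omega) (by push_cast at h4; omega), ?_⟩
        push_cast
        exact hns
      · by_cases c2 : k = -(m + 1)
        · subst c2
          by_contra hns
          apply n2
          refine ⟨fun k' h3 h4 => ?_, ?_⟩
          · have := ih' (-k') (by push_cast at h4; omega) (by omega)
            rwa [neg_mul, ← sub_eq_add_neg] at this
          · push_cast
            rwa [neg_mul, ← sub_eq_add_neg] at hns
        · exact ih' k (by omega) (by omega)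
  exact step R le_rfl

end Pool.Agent.TH27.FS
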