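import Pool.Agent.TH27.FS.Cross
set_option autoImplicit false
namespace Pool.Agent.TH27.FS
open Equiv

private theorem box_agree {A : Type} {T : TB A} {x y : ℤ → A} {p p' : ℤ} (hx : T.site x p)
    (hy : T.site y p') (h : cont T.n x p = cont T.n y p') (i : ℤ) (h1 : -(2 * T.S.μ : ℤ) ≤ i)
    (h2 : i < T.n + 2 * T.S.μ) : x (p + i) = y (p' + i) := by
  obtain ⟨a1, a2, a3, a4, a5⟩ := hx
  obtain ⟨b1, b2, b3, b4, b5⟩ := hy
  by_cases c1 : i < - T.S.μ
  · have e1 := a1 (i + 2 * T.S.μ) (by omega) (by omega)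
    have e2 := b1 (i + 2 * T.S.μ) (by omega) (by omega)
    rw [show p - 2 * T.S.μ + (i + 2 * T.S.μ) = p + i by ring] at e1
    rw [show p' - 2 * T.S.μ + (i + 2 * T.S.μ) = p' + i by ring] at e2
    rw [e1, e2]
  by_cases c2 : i < 0
  · have e1 := a2 (i + T.S.μ) (by omega) (by omega)
    have e2 := b2 (i + T.S.μ) (by omega) (by omega)
    rw [show p - T.S.μ + (i + T.S.μ) = p + i by ring] at e1
    rw [show p' - T.S.μ + (i + T.S.μ) = p' + i by ring] at e2
    rw [e1, e2]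
  by_cases c3 : i < T.n
  · exact cont_eq_iff.1 h i (by omega) c3
  by_cases c4 : i < T.n + T.S.μ
  · have e1 := a4 (i - T.n) (by omega) (by omega)
    have e2 := b4 (i - T.n) (by omega) (by omega)
    rw [show p + T.n + (i - T.n) = p + i by ring] at e1
    rw [show p' + T.n + (i - T.n) = p' + i by ring] at e2
    rw [e1, e2]
  · have e1 := a5 (i - T.n - T.S.μ) (by omega) (by omega)
    have e2 := b5 (i - T.n - T.S.μ) (by omega) (by omega)
    rw [show p + T.n + T.S.μ + (i - T.n - T.S.μ) = p + i by ring] at e1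
    rw [show p' + T.n + T.S.μ + (i - T.n - T.S.μ) = p' + i by ring] at e2
    rw [e1, e2]

private theorem tile {A : Type} {T : TB A} {x y : ℤ → A} {p p' : ℤ} {k0 k1 : ℤ}
    (hx : ∀ k, k0 ≤ k → k < k1 → T.site x (p + k * T.d))
    (hy : ∀ k, k0 ≤ k → k < k1 → T.site y (p' + k * T.d))
    (h : ∀ k, k0 ≤ k → k < k1 → cont T.n x (p + k * T.d) = cont T.n y (p' + k * T.d))
    (i : ℤ) (h1 : k0 * T.d ≤ i) (h2 : i < (k1 - 1) * T.d) : x (p + i) = y (p' + i) := by
  have hd := T.d_pos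
  obtain ⟨k, t, ht0, ht1, rfl⟩ : ∃ k t : ℤ, 0 ≤ t ∧ t < T.d ∧ i = k * T.d + t :=
    ⟨i / T.d, i % T.d, Int.emod_nonneg _ hd.ne', Int.emod_lt_of_pos _ hd, by
      have := Int.mul_ediv_add_emod i T.d
      linarith [mul_comm T.d (i / T.d)]⟩
  have c1 : k0 ≤ k := by
    by_contra hc
    have : (k + 1) * T.d ≤ k0 * T.d := mul_le_mul_of_nonneg_right (by omega) hd.le
    nlinarith
  have c2 : k < k1 - 1 := by
    by_contra hc
    have : (k1 - 1) * T.d ≤ k * T.d := mul_le_mul_of_nonneg_right (by omega) hd.le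
    nlinarith
  by_cases c3 : t < T.n + 2 * T.S.μ
  · have := box_agree (hx k c1 (by omega)) (hy k c1 (by omega)) (h k c1 (by omega)) t
      (by omega) c3
    rwa [add_assoc, add_assoc] at this
  · have hdd : T.d = T.n + 3 * T.S.μ := rfl
    have := box_agree (hx (k + 1) (by omega) (by omega)) (hy (k + 1) (by omega) (by omega))
      (h (k + 1) (by omega) (by omega)) (t - T.d) (by omega) (by omega)
    rwa [show p + (k + 1) * T.d + (t - T.d) = p + (k * T.d + t) by ring,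
      show p' + (k + 1) * T.d + (t - T.d) = p' + (k * T.d + t) by ring] at this

private theorem per_mul {A : Type} {x : ℤ → A} {d : ℤ} (h : ∀ j, x (j + d) = x j) (k : ℤ) :
    ∀ j, x (j + k * d) = x j := by
  induction k using Int.induction_on with
  | zero => intro j; simp
  | succ n ih =>
    intro j
    rw [show j + ((n : ℤ) + 1) * d = j + n * d + d by ring, h, ih]
  | pred n ih =>
    intro j
    rw [← h (j + (-(n : ℤ) - 1) * d), show j + (-(n : ℤ) - 1) * d + d = j + (-(n : ℤ)) * d by ring,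
      ih]

/-- NO LONG RUNS. (`q z` plays the role of the periodic point with all contents `z`.) -/
theorem TB.no_runs {A : Type} (T : TB A) {Zp Zq : Set (Fin T.n → A)} (hp : Zp ⊆ T.Z)
    (hq : Zq ⊆ T.Z) (q : (Fin T.n → A) → ℤ → A)
    (hq1 : ∀ z ∈ T.Z, ∀ k : ℤ, T.site (q z) (k * T.d) ∧ cont T.n (q z) (k * T.d) = z)
    (g : AutG A) (hg : ∀ w ∈ Zp, ∀ z ∈ Zq, ∀ j : ℤ, g.1 (q w) ≠ sh j (q z)) :
    ∃ R₂ : ℕ, 1 ≤ R₂ ∧ ∀ s ∈ (T.sub Zp hp).Sset, ∀ (p : ℤ), ∀ z ∈ Zq,
      ¬ ∀ k : ℤ, 0 ≤ k → k < R₂ →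
        T.site (g.1 s) (p + k * T.d) ∧ cont T.n (g.1 s) (p + k * T.d) = z := by
  have hd := T.d_pos
  have hdd : T.d = T.n + 3 * T.S.μ := rfl
  obtain ⟨r1, hr1⟩ := AutG.loc g
  obtain ⟨r2, hr2⟩ := AutG.loc g⁻¹
  obtain ⟨r, rfl⟩ : ∃ r : ℕ, r = r1 + r2 := ⟨_, rfl⟩
  -- periodic points are periodic
  have qper : ∀ z ∈ T.Z, ∀ j, q z (j + T.d) = q z j := by
    intro z hz j
    have := tile (T := T) (x := q z) (y := q z) (p := T.d) (p' := 0) (k0 := j / T.d)
      (k1 := j / T.d + 2)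
      (fun k _ _ => by
        have := (hq1 z hz (k + 1)).1
        rwa [show (k + 1) * T.d = T.d + k * T.d by ring] at this)
      (fun k _ _ => by
        have := (hq1 z hz k).1
        rwa [zero_add])
      (fun k _ _ => by
        have e1 := (hq1 z hz (k + 1)).2
        have e2 := (hq1 z hz k).2
        rw [show (k + 1) * T.d = T.d + k * T.d by ring] at e1
        rw [zero_add, e1, e2]) j (Int.ediv_mul_le _ hd.ne') (by
          have := Int.lt_ediv_add_one_mul_self j hd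
          rwa [show j / T.d + 2 - 1 = j / T.d + 1 by ring])
    rw [add_comm] at this
    rw [this]
    simp
  refine ⟨4 * (r1 + r2) + 6, by omega, fun s hs p z hz hrun => ?_⟩
  have hzT := hq hz
  obtain ⟨p0, hp0⟩ := hs
  have hsite : ∀ k : ℤ, T.site s (p0 + k * T.d) ∧ cont T.n s (p0 + k * T.d) ∈ Zp := fun k =>
    (T.sub_site Zp hp s _).1 (hp0 k)
  obtain ⟨Y, hY⟩ : ∃ Y, Y = sh (-p) (q z) := ⟨_, rfl⟩
  have hYper : ∀ j, Y (j + T.d) = Y j := by
    intro j
    rw [hY, sh_apply, sh_apply, show j + T.d + -p = j + -p + T.d by ring, qper z hzT]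
  have hYsh : sh T.d Y = Y := funext hYper
  have hrd : ((r1 + r2 : ℕ) : ℤ) ≤ ((r1 + r2 : ℕ) : ℤ) * T.d := by nlinarith
  obtain ⟨ρ, hρ⟩ : ∃ ρ : ℤ, ρ = ((r1 + r2 : ℕ) : ℤ) := ⟨_, rfl⟩
  have hρ1 : (r1 : ℤ) ≤ ρ := by rw [hρ]; push_cast; omega
  have hρ2 : (r2 : ℤ) ≤ ρ := by rw [hρ]; push_cast; omega
  rw [← hρ] at hrd
  have hρ0 : 0 ≤ ρ := by omega
  have hR : (((4 * (r1 + r2) + 6 : ℕ)) : ℤ) = 4 * ρ + 6 := by rw [hρ]; push_cast; ring
  rw [hR] at hrun
  -- (1) y = Y on a long interval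
  have h1 : ∀ j, p ≤ j → j < p + (4 * ρ + 5) * T.d → g.1 s j = Y j := by
    intro j h3 h4
    have := tile (T := T) (x := g.1 s) (y := q z) (p := p) (p' := 0) (k0 := 0)
      (k1 := 4 * ρ + 6) (fun k a b => (hrun k a b).1)
      (fun k _ _ => by rw [zero_add]; exact (hq1 z hzT k).1)
      (fun k a b => by rw [zero_add, (hrun k a b).2, (hq1 z hzT k).2]) (j - p) (by linarith)
      (by rw [show 4 * ρ + 6 - 1 = 4 * ρ + 5 by ring]; linarith)
    rw [show p + (j - p) = j by ring] at this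
    rw [this, hY, sh_apply]
    congr 1; ring
  -- (3)
  have hgY : sh T.d ((g⁻¹).1 Y) = (g⁻¹).1 Y := by rw [← AutG.comm, hYsh]
  -- (4)
  have h4 : ∀ j, p + ρ ≤ j → j < p + (4 * ρ + 5) * T.d - ρ → s j = (g⁻¹).1 Y j := by
    intro j h5 h6
    have := hr2 (g.1 s) Y j (fun i h7 h8 => h1 i (by linarith) (by linarith))
    rwa [AutG.inv_apply_self] at this
  have h5 : ∀ j, p + ρ ≤ j → j + T.d < p + (4 * ρ + 5) * T.d - ρ → s (j + T.d) = s j := by
    intro j h6 h7
    rw [h4 j h6 (by linarith), h4 (j + T.d) (by linarith) h7]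
    exact congrFun hgY j
  -- (6)
  obtain ⟨k1, hk1, hk1'⟩ : ∃ k1 : ℤ, p + ρ ≤ p0 + k1 * T.d ∧ p0 + k1 * T.d < p + ρ + T.d := by
    refine ⟨-((p0 - (p + ρ)) / T.d), ?_, ?_⟩
    · have := Int.ediv_mul_le (p0 - (p + ρ)) hd.ne'
      linarith
    · have := Int.lt_ediv_add_one_mul_self (p0 - (p + ρ)) hd
      linarith
  obtain ⟨p1, hp1⟩ : ∃ p1, p1 = p0 + k1 * T.d := ⟨_, rfl⟩
  rw [← hp1] at hk1 hk1'
  have hs1 : ∀ k : ℤ, T.site s (p1 + k * T.d) ∧ cont T.n s (p1 + k * T.d) ∈ Zp := by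
    intro k
    have := hsite (k1 + k)
    rwa [show p0 + (k1 + k) * T.d = p1 + k * T.d by rw [hp1]; ring] at this
  obtain ⟨w, hw⟩ : ∃ w, w = cont T.n s p1 := ⟨_, rfl⟩
  have hwp : w ∈ Zp := by
    have := (hs1 0).2
    rw [zero_mul, add_zero] at this
    rwa [hw]
  have hwT := hp hwp
  have hcont : ∀ k : ℕ, (k : ℤ) ≤ 2 * ρ + 1 → cont T.n s (p1 + k * T.d) = w := by
    intro k
    induction k with
    | zero => intro _; simp [hw]
    | succ k ih =>
      intro hk
      push_cast at hk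
      rw [← ih (by omega)]
      apply cont_congr
      intro i h6 h7
      have hb : ((k : ℤ) + 1) * T.d ≤ (2 * ρ + 1) * T.d :=
        mul_le_mul_of_nonneg_right (by omega) hd.le
      have hb0 : 0 ≤ (k : ℤ) * T.d := by positivity
      have hn : i < T.d := by omega
      have := h5 (p1 + k * T.d + i) (by linarith) (by
        have e1 : (4 * ρ + 5) * T.d = 4 * (ρ * T.d) + 5 * T.d := by ring
        have e2 : (2 * ρ + 1) * T.d = 2 * (ρ * T.d) + T.d := by ring
        have e3 : ((k : ℤ) + 1) * T.d = k * T.d + T.d := by ring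
        rw [e1]
        rw [e2, e3] at hb
        linarith)
      rw [← this]
      congr 1
      push_cast; ring
  -- (7)
  obtain ⟨W, hW⟩ : ∃ W, W = sh (-p1) (q w) := ⟨_, rfl⟩
  have hWper : ∀ j, W (j + T.d) = W j := by
    intro j
    rw [hW, sh_apply, sh_apply, show j + T.d + -p1 = j + -p1 + T.d by ring, qper w hwT]
  have h7 : ∀ j, p1 ≤ j → j < p1 + (2 * ρ + 1) * T.d → s j = W j := by
    intro j h3 h4
    have := tile (T := T) (x := s) (y := q w) (p := p1) (p' := 0) (k0 := 0)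
      (k1 := 2 * ρ + 2) (fun k a b => (hs1 k).1)
      (fun k _ _ => by rw [zero_add]; exact (hq1 w hwT k).1)
      (fun k a b => by
        rw [zero_add, (hq1 w hwT k).2]
        have := hcont k.toNat (by rw [Int.toNat_of_nonneg a]; omega)
        rwa [Int.toNat_of_nonneg a] at this) (j - p1) (by linarith)
      (by rw [show 2 * ρ + 2 - 1 = 2 * ρ + 1 by ring]; linarith)
    rw [show p1 + (j - p1) = j by ring] at this
    rw [this, hW, sh_apply]
    congr 1; ring
  -- (8)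
  have h8 : ∀ j, p1 + ρ ≤ j → j < p1 + ρ + T.d → g.1 W j = Y j := by
    intro j h3 h9
    have e1 : (2 * ρ + 1) * T.d = 2 * (ρ * T.d) + T.d := by ring
    have e2 : (4 * ρ + 5) * T.d = 4 * (ρ * T.d) + 5 * T.d := by ring
    have := hr1 W s j (fun i a b => (h7 i (by linarith) (by rw [e1]; linarith)).symm)
    rw [this]
    exact h1 j (by linarith) (by rw [e2]; linarith)
  have hWsh : sh T.d W = W := funext hWper
  have hgW : ∀ j, g.1 W (j + T.d) = g.1 W j := by
    intro j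
    have := congrFun (AutG.comm g T.d W) j
    rw [hWsh] at this
    exact this.symm
  have h9 : g.1 W = Y := by
    funext j
    obtain ⟨k, hk1, hk2⟩ : ∃ k : ℤ, p1 + ρ ≤ j + k * T.d ∧ j + k * T.d < p1 + ρ + T.d := by
      refine ⟨-((j - (p1 + ρ)) / T.d), ?_, ?_⟩
      · have := Int.ediv_mul_le (j - (p1 + ρ)) hd.ne'
        linarith
      · have := Int.lt_ediv_add_one_mul_self (j - (p1 + ρ)) hd
        linarith
    rw [← per_mul hgW k j, ← per_mul hYper k j]
    exact h8 _ hk1 hk2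
  apply hg w hwp z hz (p1 - p)
  have e1 : g.1 W = sh (-p1) (g.1 (q w)) := by rw [hW, AutG.comm]
  rw [e1, hY] at h9
  have := congrArg (sh p1) h9
  rw [sh_sh, sh_sh] at this
  rw [show p1 + -p1 = 0 by ring, sh_zero] at this
  rw [this]
  congr 1

end Pool.Agent.TH27.FS
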